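import Pool.Agent.Helper17.CA.Final

set_option autoImplicit false

namespace Pool.Agent.Results.MP_16e137_co.CantoniSphere

/-- Cubic graphs embedded in the sphere (rotation system `ρ`, Euler formula): exactly three
Hamilton cycles if and only if the graph arises from `K₄` by repeatedly replacing a vertex by a
triangle. -/
theorem result {V : Type} [Fintype V] [DecidableEq V] (G : SimpleGraph V)
    (ρ : Equiv.Perm G.Dart) (h1 : ∀ d, (ρ d).fst = d.fst) (h2 : ∀ d, ρ d ≠ d)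
    (h3 : ∀ v : V, (G.neighborSet v).ncard = 3)
    (hE : (Fintype.card V : ℤ) - (G.edgeSet.ncard : ℤ) +
      (Nat.card (Quot fun x y : G.Dart => ρ x.symm = y) : ℤ) = 2) :
    {s : Set (Sym2 V) | ∃ (u : V) (p : G.Walk u u),
      p.IsHamiltonianCycle ∧ s = {e : Sym2 V | e ∈ p.edges}}.ncard = 3 ↔
    ∃ (n : ℕ) (Γ : ∀ k : ℕ, SimpleGraph (Fin (4 + 2 * k))),
          Γ 0 = (⊤ : SimpleGraph (Fin (4 + 2 * 0))) ∧
          (∀ (k : ℕ) (x : Fin (4 + 2 * k)), ((Γ k).neighborSet x).ncard = 3) ∧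
          (∀ k : ℕ, k < n →
            ∃ (f : Fin (4 + 2 * (k + 1)) → Fin (4 + 2 * k)) (v : Fin (4 + 2 * k)),
              (f ⁻¹' ({v} : Set (Fin (4 + 2 * k)))).ncard = 3 ∧
              (∀ w : Fin (4 + 2 * k), w ≠ v →
                (f ⁻¹' ({w} : Set (Fin (4 + 2 * k)))).ncard = 1) ∧
              (∀ x y : Fin (4 + 2 * (k + 1)),
                (Γ (k + 1)).Adj x y → f x = f y ∨ (Γ k).Adj (f x) (f y)) ∧
              (∀ x y : Fin (4 + 2 * (k + 1)),
                x ≠ y → f x = v → f y = v → (Γ (k + 1)).Adj x y) ∧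
              (∀ a b : Fin (4 + 2 * k), (Γ k).Adj a b →
                ∃! e : Sym2 (Fin (4 + 2 * (k + 1))),
                  e ∈ (Γ (k + 1)).edgeSet ∧ Sym2.map f e = s(a, b))) ∧
          Nonempty (G ≃g Γ n) :=
  ⟨Pool.Agent.Helper17.CA.class_euler G ρ h1 h2 h3 Pool.Agent.Helper17.CA.cyc_bound hE,
    Pool.Agent.Helper17.CA.threeOf V G⟩

end Pool.Agent.Results.MP_16e137_co.CantoniSphere
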